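import Pool.Agent.Helper71.PR.Goals

/-!
# Packet PR-LDU1: LDU decomposition with the minor formulas
-/

set_option autoImplicit false

namespace Pool.Agent.Helper5.PR

open Matrix Pool.Agent.Helper71.PR

theorem det_low {n : ℕ} {L : Mt n} (h : LowU L) : L.det = 1 := by
  rw [Matrix.det_of_lowerTriangular L (fun i j hij => h.2 i j hij)]
  simp [h.1]

theorem det_upp {n : ℕ} {U : Mt n} (h : UppU U) : U.det = 1 := by
  rw [Matrix.det_of_upperTriangular (fun i j hij => h.2 i j hij)]
  simp [h.1]

theorem exists_ldu : ∀ (n : ℕ) (Y : Mt n),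
    (∀ k (hk : k ≤ n), (Y.submatrix (Fin.castLE hk) (Fin.castLE hk)).det ≠ 0) →
    ∃ (L U : Mt n) (d : Fin n → ℝ), LowU L ∧ UppU U ∧ (∀ j, d j ≠ 0) ∧
      Y = L * diagonal d * U := by
  intro n
  induction n with
  | zero =>
    intro Y _
    exact ⟨1, 1, fun _ => 1, ⟨fun i => i.elim0, fun i => i.elim0⟩,
      ⟨fun i => i.elim0, fun i => i.elim0⟩, fun i => i.elim0, by ext i; exact i.elim0⟩
  | succ n ih =>
    intro Y hY
    obtain ⟨L', U', d', hL, hU, hd, hE⟩ := ih (Y.submatrix Fin.castSucc Fin.castSucc) (by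
      intro k hk
      have h1 := hY k (hk.trans (Nat.le_succ n))
      rw [Matrix.submatrix_submatrix]
      exact h1)
    have hdiag : (diagonal d').det ≠ 0 := by
      rw [Matrix.det_diagonal]
      exact Finset.prod_ne_zero_iff.2 fun i _ => hd i
    have hLD : IsUnit (L' * diagonal d').det := by
      rw [Matrix.det_mul, det_low hL, one_mul]
      exact isUnit_iff_ne_zero.2 hdiag
    have hDU : IsUnit (diagonal d' * U').det := by
      rw [Matrix.det_mul, det_upp hU, mul_one]
      exact isUnit_iff_ne_zero.2 hdiag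
    let y : Fin n → ℝ := (L' * diagonal d')⁻¹ *ᵥ fun i => Y (Fin.castSucc i) (Fin.last n)
    let x : Fin n → ℝ := (fun j => Y (Fin.last n) (Fin.castSucc j)) ᵥ* (diagonal d' * U')⁻¹
    have hy : ∀ i : Fin n, ∑ c, L' i c * d' c * y c = Y (Fin.castSucc i) (Fin.last n) := by
      intro i
      have h1 : (L' * diagonal d') *ᵥ y = fun i => Y (Fin.castSucc i) (Fin.last n) := by
        show (L' * diagonal d') *ᵥ ((L' * diagonal d')⁻¹ *ᵥ _) = _
        rw [Matrix.mulVec_mulVec, Matrix.mul_nonsing_inv _ hLD, Matrix.one_mulVec]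
      have h2 := congrFun h1 i
      rw [← h2]
      simp only [Matrix.mulVec, dotProduct, Matrix.mul_diagonal]
    have hx : ∀ j : Fin n, ∑ c, x c * d' c * U' c j = Y (Fin.last n) (Fin.castSucc j) := by
      intro j
      have h1 : x ᵥ* (diagonal d' * U') = fun j => Y (Fin.last n) (Fin.castSucc j) := by
        show ((_ ᵥ* (diagonal d' * U')⁻¹) ᵥ* (diagonal d' * U')) = _
        rw [Matrix.vecMul_vecMul, Matrix.nonsing_inv_mul _ hDU, Matrix.vecMul_one]
      have h2 := congrFun h1 j
      rw [← h2]
      simp only [Matrix.vecMul, dotProduct, Matrix.diagonal_mul]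
      exact Finset.sum_congr rfl fun c _ => by ring
    have hYY : ∀ i j : Fin n, ∑ c, L' i c * d' c * U' c j = Y (Fin.castSucc i) (Fin.castSucc j) := by
      intro i j
      have h1 := congrFun (congrFun hE i) j
      rw [Matrix.submatrix_apply, Matrix.mul_apply] at h1
      rw [h1]
      simp only [Matrix.mul_diagonal]
    let L : Mt (n + 1) := Matrix.of fun i j => Fin.lastCases (motive := fun _ => ℝ)
      (Fin.lastCases (motive := fun _ => ℝ) 1 x j)
      (fun i' => Fin.lastCases (motive := fun _ => ℝ) 0 (fun j' => L' i' j') j) i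
    let U : Mt (n + 1) := Matrix.of fun i j => Fin.lastCases (motive := fun _ => ℝ)
      (Fin.lastCases (motive := fun _ => ℝ) 1 (fun _ => 0) j)
      (fun i' => Fin.lastCases (motive := fun _ => ℝ) (y i') (fun j' => U' i' j') j) i
    let s : ℝ := Y (Fin.last n) (Fin.last n) - ∑ c, x c * d' c * y c
    let d : Fin (n + 1) → ℝ := Fin.lastCases (motive := fun _ => ℝ) s d'
    have L1 : L (Fin.last n) (Fin.last n) = 1 := by simp [L]
    have L2 : ∀ j, L (Fin.last n) (Fin.castSucc j) = x j := by intro j; simp [L]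
    have L3 : ∀ i, L (Fin.castSucc i) (Fin.last n) = 0 := by intro i; simp [L]
    have L4 : ∀ i j, L (Fin.castSucc i) (Fin.castSucc j) = L' i j := by intro i j; simp [L]
    have U1 : U (Fin.last n) (Fin.last n) = 1 := by simp [U]
    have U2 : ∀ j, U (Fin.last n) (Fin.castSucc j) = 0 := by intro j; simp [U]
    have U3 : ∀ i, U (Fin.castSucc i) (Fin.last n) = y i := by intro i; simp [U]
    have U4 : ∀ i j, U (Fin.castSucc i) (Fin.castSucc j) = U' i j := by intro i j; simp [U]
    have d1 : d (Fin.last n) = s := by simp [d]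
    have d2 : ∀ j, d (Fin.castSucc j) = d' j := by intro j; simp [d]
    have hLow : LowU L := by
      constructor
      · intro i
        induction i using Fin.lastCases with
        | last => exact L1
        | cast i => rw [L4]; exact hL.1 i
      · intro i j hij
        induction i using Fin.lastCases with
        | last => exact absurd hij (not_lt.2 (Fin.le_last j))
        | cast i =>
          induction j using Fin.lastCases with
          | last => exact L3 i
          | cast j => rw [L4]; exact hL.2 i j (Fin.castSucc_lt_castSucc_iff.1 hij)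
    have hUpp : UppU U := by
      constructor
      · intro i
        induction i using Fin.lastCases with
        | last => exact U1
        | cast i => rw [U4]; exact hU.1 i
      · intro i j hij
        induction j using Fin.lastCases with
        | last => exact absurd hij (not_lt.2 (Fin.le_last i))
        | cast j =>
          induction i using Fin.lastCases with
          | last => exact U2 j
          | cast i => rw [U4]; exact hU.2 i j (Fin.castSucc_lt_castSucc_iff.1 hij)
    have hEq : Y = L * diagonal d * U := by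
      ext i j
      rw [Matrix.mul_apply]
      simp only [Matrix.mul_diagonal]
      rw [Fin.sum_univ_castSucc]
      induction i using Fin.lastCases with
      | last =>
        induction j using Fin.lastCases with
        | last =>
          simp only [L1, L2, U1, U3, d1, d2, s]
          ring
        | cast j =>
          simp only [L1, L2, U2, U4, d1, d2]
          rw [hx]
          ring
      | cast i =>
        induction j using Fin.lastCases with
        | last =>
          simp only [L3, L4, U1, U3, d1, d2]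
          rw [hy]
          ring
        | cast j =>
          simp only [L3, L4, U2, U4, d1, d2]
          rw [hYY]
          ring
    refine ⟨L, U, d, hLow, hUpp, ?_, hEq⟩
    have hdetY : Y.det ≠ 0 := by
      have h1 := hY (n + 1) le_rfl
      have h2 : Y.submatrix (Fin.castLE le_rfl) (Fin.castLE le_rfl) = Y := by
        ext i j
        rfl
      rwa [h2] at h1
    have hprod : ∏ c, d c ≠ 0 := by
      intro h0
      apply hdetY
      rw [hEq, Matrix.det_mul, Matrix.det_mul, det_low hLow, det_upp hUpp, Matrix.det_diagonal, h0]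
      ring
    intro j
    exact Finset.prod_ne_zero_iff.1 hprod j (Finset.mem_univ j)

/-- the increasing enumeration of `{0, …, j-1, i}` -/
def gI {n : ℕ} (j i : Fin n) (a : Fin ((j : ℕ) + 1)) : Fin n :=
  if h : (a : ℕ) < j then ⟨a, h.trans j.2⟩ else i

theorem gI_lt {n : ℕ} (j i : Fin n) (a : Fin ((j : ℕ) + 1)) (h : (a : ℕ) < j) :
    gI j i a = ⟨a, h.trans j.2⟩ := by
  unfold gI
  rw [dif_pos h]

theorem gI_ge {n : ℕ} (j i : Fin n) (a : Fin ((j : ℕ) + 1)) (h : ¬ (a : ℕ) < j) :
    gI j i a = i := by
  unfold gI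
  rw [dif_neg h]

theorem gI_last {n : ℕ} (j i : Fin n) : gI j i (Fin.last j) = i :=
  gI_ge j i _ (by simp)

theorem gI_self {n : ℕ} (j : Fin n) (a : Fin ((j : ℕ) + 1)) : ((gI j j a : Fin n) : ℕ) = a := by
  by_cases h : (a : ℕ) < j
  · rw [gI_lt j j a h]
  · rw [gI_ge j j a h]
    have := a.2
    omega

theorem emb_bd {n : ℕ} (j i : Fin n) (h : j ≤ i) : (⇑(bd j i h).emb : Fin ((j : ℕ) + 1) → Fin n) = gI j i := by
  symm
  refine Finset.orderEmbOfFin_unique _ ?_ ?_
  · intro a
    show gI j i a ∈ insert i (Finset.Iio j)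
    by_cases ha : (a : ℕ) < j
    · rw [gI_lt j i a ha]
      exact Finset.mem_insert_of_mem (Finset.mem_Iio.2 ha)
    · rw [gI_ge j i a ha]
      exact Finset.mem_insert_self _ _
  · intro a b hab
    have hb := b.2
    have hab' : (a : ℕ) < b := hab
    have ha : (a : ℕ) < j := by omega
    rw [gI_lt j i a ha]
    by_cases hbj : (b : ℕ) < j
    · rw [gI_lt j i b hbj]
      exact hab'
    · rw [gI_ge j i b hbj]
      exact lt_of_lt_of_le (show (⟨a, ha.trans j.2⟩ : Fin n) < j from ha) h

theorem f1 {n : ℕ} {L U : Mt n} {d : Fin n → ℝ} (hL : LowU L) (hU : UppU U) (j i : Fin n)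
    (h : j ≤ i) : cp ((j : ℕ) + 1) (L * diagonal d * U) (bd j i h) (bd j j le_rfl) =
      L i j * ((∏ c : Fin j, d (gI j j c.castSucc)) * d j) := by
  unfold cp
  rw [emb_bd, emb_bd]
  have hM : (L * diagonal d * U).submatrix (gI j i) (gI j j) =
      (Matrix.of fun a c => L (gI j i a) (gI j j c)) * diagonal (fun c => d (gI j j c)) *
        (Matrix.of fun c b => U (gI j j c) (gI j j b)) := by
    ext a b
    rw [Matrix.submatrix_apply, Matrix.mul_apply, Matrix.mul_apply]
    simp only [Matrix.mul_diagonal, Matrix.of_apply]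
    symm
    refine Fintype.sum_of_injective (gI j j) ?_ _ _ ?_ ?_
    · intro a b hab
      have h1 := congrArg (fun q : Fin n => (q : ℕ)) hab
      simp only [gI_self] at h1
      exact Fin.ext h1
    · intro c hc
      have hjc : (j : ℕ) < c := by
        by_contra hcon
        refine hc ⟨⟨c, by omega⟩, ?_⟩
        apply Fin.ext
        rw [gI_self]
      have h2 : U c (gI j j b) = 0 := by
        apply hU.2
        show ((gI j j b : Fin n) : ℕ) < c
        rw [gI_self]
        have := b.2
        omega
      rw [h2, mul_zero]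
    · intro c
      rfl
  rw [hM, Matrix.det_mul, Matrix.det_mul, Matrix.det_diagonal]
  have hA : (Matrix.of fun a c => L (gI j i a) (gI j j c)).det = L i j := by
    rw [Matrix.det_of_lowerTriangular]
    · rw [Fin.prod_univ_castSucc]
      simp only [Matrix.of_apply, gI_last]
      have h1 : ∀ c : Fin j, L (gI j i c.castSucc) (gI j j c.castSucc) = 1 := by
        intro c
        have hc : ((c.castSucc : Fin ((j : ℕ) + 1)) : ℕ) < j := c.2
        rw [gI_lt j i _ hc, gI_lt j j _ hc]
        exact hL.1 _
      rw [Finset.prod_congr rfl fun c _ => h1 c, Finset.prod_const_one, one_mul]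
    · intro a c hac
      have hac' : (a : ℕ) < c := hac
      have hc := c.2
      rw [Matrix.of_apply, gI_lt j i a (by omega)]
      apply hL.2
      show (a : ℕ) < (gI j j c : Fin n)
      rw [gI_self]
      exact hac'
  have hB : (Matrix.of fun c b => U (gI j j c) (gI j j b)).det = 1 := by
    rw [Matrix.det_of_upperTriangular]
    · simp only [Matrix.of_apply, hU.1, Finset.prod_const_one]
    · intro a c hac
      have hac' : (c : ℕ) < a := hac
      rw [Matrix.of_apply]
      apply hU.2
      show ((gI j j c : Fin n) : ℕ) < (gI j j a : Fin n)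
      rw [gI_self, gI_self]
      exact hac'
  rw [hA, hB, mul_one, Fin.prod_univ_castSucc, gI_last]

theorem cp_transpose {n : ℕ} (r : ℕ) (A : Mt n) (I K : JS r n) : cp r Aᵀ I K = cp r A K I := by
  unfold cp
  rw [← Matrix.det_transpose]
  rfl

theorem f2 {n : ℕ} {L U : Mt n} {d : Fin n → ℝ} (hL : LowU L) (hU : UppU U) (j i : Fin n)
    (h : j ≤ i) : cp ((j : ℕ) + 1) (L * diagonal d * U) (bd j j le_rfl) (bd j i h) =
      U j i * ((∏ c : Fin j, d (gI j j c.castSucc)) * d j) := by
  rw [← cp_transpose]
  have h1 : (L * diagonal d * U)ᵀ = Uᵀ * diagonal d * Lᵀ := by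
    rw [Matrix.transpose_mul, Matrix.transpose_mul, Matrix.diagonal_transpose, Matrix.mul_assoc]
  rw [h1]
  exact f1 (L := Uᵀ) (U := Lᵀ) ⟨fun i => hU.1 i, fun i j hij => hU.2 j i hij⟩
    ⟨fun i => hL.1 i, fun i j hij => hL.2 j i hij⟩ j i h

theorem f3 {n : ℕ} {L U : Mt n} {d : Fin n → ℝ} (hL : LowU L) (hU : UppU U) (j i : Fin n)
    (h : j ≤ i) (hij : (i : ℕ) = j + 1) :
    cp ((j : ℕ) + 1) (L * diagonal d * U) (bd j i h) (bd j i h) =
      (∏ c : Fin j, d (gI j j c.castSucc)) * (L i j * d j * U j i + d i) := by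
  unfold cp
  rw [emb_bd]
  let A : Matrix (Fin ((j : ℕ) + 1)) (Fin ((j : ℕ) + 1)) ℝ := Matrix.of fun a c =>
    if (c : ℕ) < j then L (gI j i a) (gI j j c) else if (a : ℕ) < j then 0 else 1
  let B : Matrix (Fin ((j : ℕ) + 1)) (Fin ((j : ℕ) + 1)) ℝ := Matrix.of fun c b =>
    if (c : ℕ) < j then U (gI j j c) (gI j i b) else if (b : ℕ) < j then 0 else 1
  let δ : Fin ((j : ℕ) + 1) → ℝ := fun c =>
    if (c : ℕ) < j then d (gI j j c) else L i j * d j * U j i + d i
  have hgile : ∀ a : Fin ((j : ℕ) + 1), ((gI j i a : Fin n) : ℕ) ≤ i := by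
    intro a
    by_cases ha : (a : ℕ) < j
    · rw [gI_lt j i a ha]
      show (a : ℕ) ≤ i
      omega
    · rw [gI_ge j i a ha]
  have hM : (L * diagonal d * U).submatrix (gI j i) (gI j i) = A * diagonal δ * B := by
    ext a b
    rw [Matrix.submatrix_apply, Matrix.mul_apply, Matrix.mul_apply]
    simp only [Matrix.mul_diagonal]
    have hn : (j : ℕ) + 1 + 1 ≤ n := by
      have := i.2
      omega
    have h1 : ∑ c : Fin n, L (gI j i a) c * d c * U c (gI j i b) =
        ∑ c : Fin ((j : ℕ) + 1 + 1), L (gI j i a) (Fin.castLE hn c) * d (Fin.castLE hn c) *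
          U (Fin.castLE hn c) (gI j i b) := by
      symm
      refine Fintype.sum_of_injective (Fin.castLE hn) (Fin.castLE_injective hn) _ _ ?_ ?_
      · intro c hc
        have hic : (i : ℕ) < c := by
          by_contra hcon
          exact hc ⟨⟨c, by omega⟩, Fin.ext rfl⟩
        have h2 : L (gI j i a) c = 0 := by
          apply hL.2
          exact lt_of_le_of_lt (hgile a) hic
        rw [h2, zero_mul, zero_mul]
      · intro c
        rfl
    rw [h1, Fin.sum_univ_castSucc, Fin.sum_univ_castSucc, Fin.sum_univ_castSucc]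
    have hj : Fin.castLE hn (Fin.last (j : ℕ)).castSucc = j := Fin.ext rfl
    have hi : Fin.castLE hn (Fin.last ((j : ℕ) + 1)) = i := Fin.ext (by
      show (j : ℕ) + 1 = i
      omega)
    rw [hj, hi]
    have hsum : ∀ c : Fin j, L (gI j i a) (Fin.castLE hn c.castSucc.castSucc) *
        d (Fin.castLE hn c.castSucc.castSucc) * U (Fin.castLE hn c.castSucc.castSucc) (gI j i b) =
        A a c.castSucc * δ c.castSucc * B c.castSucc b := by
      intro c
      have hc : ((c.castSucc : Fin ((j : ℕ) + 1)) : ℕ) < j := c.2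
      have hcc : Fin.castLE hn c.castSucc.castSucc = gI j j c.castSucc := by
        rw [gI_lt j j _ hc]
        rfl
      simp only [A, B, δ, Matrix.of_apply, if_pos hc, hcc]
    rw [Finset.sum_congr rfl fun c _ => hsum c, add_assoc]
    congr 1
    have hnl : ¬ ((Fin.last (j : ℕ) : Fin ((j : ℕ) + 1)) : ℕ) < j := by simp
    simp only [A, B, δ, Matrix.of_apply, if_neg hnl]
    by_cases ha : (a : ℕ) < j
    · rw [if_pos ha, gI_lt j i a ha, hL.2 ⟨a, _⟩ j ha, hL.2 ⟨a, _⟩ i (lt_of_lt_of_le
        (show (⟨a, ha.trans j.2⟩ : Fin n) < j from ha) h)]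
      ring
    · rw [if_neg ha, gI_ge j i a ha]
      by_cases hb : (b : ℕ) < j
      · rw [if_pos hb, gI_lt j i b hb, hU.2 j ⟨b, _⟩ hb, hU.2 i ⟨b, _⟩ (lt_of_lt_of_le
          (show (⟨b, hb.trans j.2⟩ : Fin n) < j from hb) h)]
        ring
      · rw [if_neg hb, gI_ge j i b hb, hL.1, hU.1]
        ring
  rw [hM, Matrix.det_mul, Matrix.det_mul, Matrix.det_diagonal]
  have hA : A.det = 1 := by
    rw [Matrix.det_of_lowerTriangular]
    · refine Finset.prod_eq_one fun c _ => ?_
      simp only [A, Matrix.of_apply]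
      by_cases hc : (c : ℕ) < j
      · rw [if_pos hc, gI_lt j i c hc, gI_lt j j c hc]
        exact hL.1 _
      · rw [if_neg hc, if_neg hc]
    · intro a c hac
      have hac' : (a : ℕ) < c := hac
      have hc := c.2
      have ha : (a : ℕ) < j := by omega
      simp only [A, Matrix.of_apply]
      by_cases hcj : (c : ℕ) < j
      · rw [if_pos hcj, gI_lt j i a ha, gI_lt j j c hcj]
        exact hL.2 _ _ hac'
      · rw [if_neg hcj, if_pos ha]
  have hB : B.det = 1 := by
    rw [Matrix.det_of_upperTriangular]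
    · refine Finset.prod_eq_one fun c _ => ?_
      simp only [B, Matrix.of_apply]
      by_cases hc : (c : ℕ) < j
      · rw [if_pos hc, gI_lt j i c hc, gI_lt j j c hc]
        exact hU.1 _
      · rw [if_neg hc, if_neg hc]
    · intro a c hac
      have hac' : (c : ℕ) < a := hac
      have haj := a.2
      have hc : (c : ℕ) < j := by omega
      simp only [B, Matrix.of_apply]
      by_cases ha : (a : ℕ) < j
      · rw [if_pos ha, gI_lt j i c hc, gI_lt j j a ha]
        exact hU.2 _ _ hac'
      · rw [if_neg ha, if_pos hc]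
  rw [hA, hB, mul_one, one_mul, Fin.prod_univ_castSucc]
  have hnl : ¬ ((Fin.last (j : ℕ) : Fin ((j : ℕ) + 1)) : ℕ) < j := by simp
  simp only [δ, if_neg hnl]
  congr 1
  refine Finset.prod_congr rfl fun c _ => ?_
  have hc : ((c.castSucc : Fin ((j : ℕ) + 1)) : ℕ) < j := c.2
  rw [if_pos hc]

theorem ldu1 : G_LDU1 := by
  intro n Y hY
  obtain ⟨L, U, d, hL, hU, hd, hE⟩ := exists_ldu n Y (by
    intro k hk
    rcases Nat.eq_zero_or_pos k with rfl | hk0
    · simp
    · have h1 := hY ⟨k - 1, by omega⟩
      have hk1 : (k - 1) + 1 = k := by omega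
      unfold ld cp at h1
      rw [emb_bd] at h1
      have h2 : Y.submatrix (Fin.castLE hk) (Fin.castLE hk) =
          (Y.submatrix (gI ⟨k - 1, by omega⟩ ⟨k - 1, by omega⟩)
            (gI ⟨k - 1, by omega⟩ ⟨k - 1, by omega⟩)).submatrix (finCongr hk1.symm)
            (finCongr hk1.symm) := by
        ext a b
        simp only [Matrix.submatrix_apply]
        congr 1 <;>
        · apply Fin.ext
          rw [gI_self]
          rfl
      rw [h2, Matrix.det_submatrix_equiv_self]
      exact h1)
  have hld : ∀ j, ld j Y = (∏ c : Fin j, d (gI j j c.castSucc)) * d j := by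
    intro j
    unfold ld
    rw [hE, f1 hL hU j j le_rfl, hL.1, one_mul]
  refine ⟨L, U, d, hL, hU, hd, hE, ?_, ?_, ?_⟩
  · intro i j h
    rw [hld j, hE, f1 hL hU j i h]
  · intro i j h
    rw [hld j, hE, f2 hL hU j i h]
  · intro i j h hij
    rw [hld j, hE, f3 hL hU j i h hij, f2 hL hU j i h, f1 hL hU j i h]
    ring

end Pool.Agent.Helper5.PR
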